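import Pool.Agent.Lib.MP_31e8d2_nt.MsG
import Pool.Agent.Lib.MP_31e8d2_nt.MsH

/-!
# MP_31e8d2_nt (Motzkin-Straus): almost all integers have no partner

For all large `M`, at most `M exp(-(log M)^{1/5})` of the integers `1 ≤ m ≤ M` have a partner
`n ≥ 1` (of any size) with `rad m = rad (n + 1)` and `rad n = rad (m + 1)`.
-/

namespace Pool.Agent.Results.MP_31e8d2_nt.AlmostNoPartner

open Pool.Agent.MS

theorem _root_.Pool.Agent.Results.MP_31e8d2_nt.AlmostNoPartner.result :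
    ∀ᶠ M : ℕ in Filter.atTop,
      (Set.ncard {m : ℕ | 1 ≤ m ∧ m ≤ M ∧ ∃ n : ℕ, 1 ≤ n ∧
        Nat.primeFactors m = Nat.primeFactors (n + 1) ∧
        Nat.primeFactors n = Nat.primeFactors (m + 1)} : ℝ) ≤
        M * Real.exp (-(Real.log M) ^ ((1 : ℝ) / 5)) := by
  filter_upwards [asymp, Filter.eventually_ge_atTop 3] with M h hM
  obtain ⟨S, y, U, hy, hU, h⟩ := h
  exact (count M S y U hM hy hU).trans h

end Pool.Agent.Results.MP_31e8d2_nt.AlmostNoPartner
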