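import Pool.Agent.Lib.MP_31e8d2_nt.MtG

/-!
# MP_31e8d2_nt (Motzkin-Straus): the number of pairs up to `X`

Outside the known family (`m^2 = n + 1` or `n^2 = m + 1`) there are at most
`O(X^{7/16 + ε})` pairs with `m, n ≤ X`.
-/

namespace Pool.Agent.Results.MP_31e8d2_nt.FewPairs

theorem _root_.Pool.Agent.Results.MP_31e8d2_nt.FewPairs.result :
    ∀ ε : ℝ, 0 < ε → ∃ C : ℝ, ∀ X : ℕ, 1 ≤ X →
      (Set.ncard {x : ℕ × ℕ | 1 ≤ x.1 ∧ x.1 ≤ X ∧ 1 ≤ x.2 ∧ x.2 ≤ X ∧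
        Nat.primeFactors x.1 = Nat.primeFactors (x.2 + 1) ∧
        Nat.primeFactors x.2 = Nat.primeFactors (x.1 + 1) ∧
        x.1 ^ 2 ≠ x.2 + 1 ∧ x.2 ^ 2 ≠ x.1 + 1} : ℝ) ≤ C * (X : ℝ) ^ ((7 : ℝ) / 16 + ε) := by
  intro ε hε
  obtain ⟨C, hC⟩ := Pool.Agent.MS.pairs_final ε hε
  refine ⟨C, fun X hX => ?_⟩
  have h := hC X hX
  simpa only [Pool.Agent.MS.Par, and_assoc] using h

end Pool.Agent.Results.MP_31e8d2_nt.FewPairs
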