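import Pool.Agent.Lib.MP_31e8d2_nt.MtI

/-!
# MP_31e8d2_nt (Motzkin-Straus): partners of polynomial size, with a power saving

For every `K ≥ 1` at most `O(M^{1 - 1/(40 K)})` of the integers `1 ≤ m ≤ M` have a partner
`n ≤ M^K`.
-/

namespace Pool.Agent.Results.MP_31e8d2_nt.PolynomialRange

theorem _root_.Pool.Agent.Results.MP_31e8d2_nt.PolynomialRange.result :
    ∀ K : ℕ, 1 ≤ K → ∃ C : ℝ, ∀ M : ℕ, 1 ≤ M →
      (Set.ncard {m : ℕ | 1 ≤ m ∧ m ≤ M ∧ ∃ n : ℕ, 1 ≤ n ∧ n ≤ M ^ K ∧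
        Nat.primeFactors m = Nat.primeFactors (n + 1) ∧
        Nat.primeFactors n = Nat.primeFactors (m + 1)} : ℝ) ≤
        C * (M : ℝ) ^ (1 - 1 / (40 * K : ℝ)) := by
  intro K hK
  obtain ⟨C, hC⟩ := Pool.Agent.MS.poly_final K hK
  refine ⟨C, fun M hM => ?_⟩
  have h := hC M hM
  simpa only [Pool.Agent.MS.Par] using h

end Pool.Agent.Results.MP_31e8d2_nt.PolynomialRange
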