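import Pool.Agent.Lib.MP_31e8d2_nt.Jac

/-!
# MP_31e8d2_nt (Motzkin-Straus): residue classes modulo 8

No integer congruent to `4` or `7` modulo `8` occurs in a pair, and the possible residue classes
of a pair are restricted further.
-/

namespace Pool.Agent.Results.MP_31e8d2_nt.ResidueClasses

theorem _root_.Pool.Agent.Results.MP_31e8d2_nt.ResidueClasses.result :
    (∀ m n : ℕ, 1 ≤ m → 1 ≤ n →
      Nat.primeFactors m = Nat.primeFactors (n + 1) →
      Nat.primeFactors n = Nat.primeFactors (m + 1) →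
      m % 8 ≠ 4 ∧ m % 8 ≠ 7) ∧
    (∀ m n i u : ℕ, 1 ≤ m → 1 ≤ n →
      Nat.primeFactors m = Nat.primeFactors (n + 1) →
      Nat.primeFactors n = Nat.primeFactors (m + 1) →
      m = 2 ^ i * u → Odd u → 1 ≤ i →
      (n % 8 = 3 ∧ Odd i ∧ (i = 1 → n % 16 = 3)) ∨
      (n % 8 = 1 ∧ 3 ≤ i ∧ u % 4 = 1) ∨
      (n % 8 = 5 ∧ 3 ≤ i ∧ (u % 4 = 1 ↔ Even i))) :=
  ⟨fun m n hm hn h1 h2 => Pool.Agent.MS.Jac.classes m n hm hn h1 h2,
    fun m n i u hm hn h1 h2 hmu hu hi =>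
      Pool.Agent.MS.Jac.pair_even m n i u hm hn h1 h2 hmu hu hi⟩

end Pool.Agent.Results.MP_31e8d2_nt.ResidueClasses
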